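import Pool.Agent.Lib.MP_144d21_co.PSI.Iface

/-!
# MP_144d21_co, project XU3, part PSI, module SWITCH: Kempe changes
-/

set_option autoImplicit false

namespace Pool.Agent.Xu.H93

open Finset Polynomial

variable {V : Type} [Fintype V] [DecidableEq V]

theorem prs_lt {s : ℕ × ℕ} (hs : s ∈ prs) : s.1 < 4 ∧ s.2 < 4 ∧ s.1 ≠ s.2 := by
  unfold prs at hs
  simp only [mem_insert, mem_singleton] at hs
  rcases hs with rfl | rfl | rfl | rfl | rfl | rfl <;> simp

theorem comp_sub {G : SimpleGraph V} {S : Finset V} {c : V → ℕ} {i j : ℕ} {D D' : Finset V}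
    (h : IsComp G S c i j D) (h' : IsComp G S c i j D') {v : V} (hv : v ∈ D) (hv' : v ∈ D') :
    D ⊆ D' := by
  by_contra hn
  obtain ⟨a, ha, b, hb, hb', hab⟩ := h.conn.2 (D ∩ D') inter_subset_left
    ⟨v, mem_inter.2 ⟨hv, hv'⟩⟩ (fun e => hn (by rw [← e]; exact inter_subset_right))
  rw [mem_inter] at ha
  exact hb' (mem_inter.2 ⟨hb, h'.closed a ha.2 b (h.sub hb) (h.col b hb) hab⟩)

theorem comp_eq {G : SimpleGraph V} {S : Finset V} {c : V → ℕ} {x y : KC G S c}
    (h : x.1.1 = y.1.1) {v : V} (hx : v ∈ x.1.2) (hy : v ∈ y.1.2) : x = y := by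
  obtain ⟨⟨s, D⟩, hs, hD⟩ := x
  obtain ⟨⟨s', D'⟩, hs', hD'⟩ := y
  simp only at h hx hy hD hD'
  subst h
  have e : D = D' := Subset.antisymm (comp_sub hD hD' hx hy) (comp_sub hD' hD hy hx)
  subst e
  rfl

theorem switch : SwitchS := by
  intro V _ _ G S c hc s hs T hT
  classical
  obtain ⟨h1, h2, h12⟩ := prs_lt hs
  obtain ⟨c1, c2, c3⟩ := mem_cols.1 hc
  have hcomp : ∀ x ∈ T, IsComp G S c s.1 s.2 x.1.2 := by
    intro x hx
    have := x.2.2
    rw [hT x hx] at this
    exact this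
  set P : V → Prop := fun v => ∃ x ∈ T, v ∈ x.1.2 with hP
  set c' : V → ℕ := fun v => if P v then (if c v = s.1 then s.2 else s.1) else c v with hc'
  have hcol : ∀ v, P v → c v = s.1 ∨ c v = s.2 := by
    rintro v ⟨x, hx, hv⟩
    exact (hcomp x hx).col v hv
  have hS : ∀ v, P v → v ∈ S := by
    rintro v ⟨x, hx, hv⟩
    exact (hcomp x hx).sub hv
  have hcl : ∀ u v, P u → v ∈ S → G.Adj u v → (c v = s.1 ∨ c v = s.2) → P v := by
    rintro u v ⟨x, hx, hu⟩ hv ha hcv
    exact ⟨x, hx, (hcomp x hx).closed u hu v hv hcv ha⟩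
  have hval : ∀ v, P v → (c v = s.1 ∧ c' v = s.2) ∨ (c v = s.2 ∧ c' v = s.1) := by
    intro v hv
    simp only [hc', if_pos hv]
    rcases hcol v hv with h | h
    · left
      exact ⟨h, by rw [if_pos h]⟩
    · right
      exact ⟨h, by rw [if_neg (by rw [h]; exact h12.symm)]⟩
  have hval' : ∀ v, ¬ P v → c' v = c v := by
    intro v hv
    simp only [hc', if_neg hv]
  refine ⟨c', mem_cols.2 ⟨?_, ?_, ?_⟩, ?_⟩
  · intro v hv
    by_cases h : P v
    · rcases hval v h with ⟨_, e⟩ | ⟨_, e⟩ <;> rw [e] <;> assumption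
    · rw [hval' v h]; exact c1 v hv
  · intro v hv
    rw [hval' v fun h => hv (hS v h)]
    exact c2 v hv
  · intro u hu v hv ha
    have hne := c3 u hu v hv ha
    by_cases hpu : P u <;> by_cases hpv : P v
    · rcases hval u hpu with ⟨e1, e2⟩ | ⟨e1, e2⟩ <;> rcases hval v hpv with ⟨e3, e4⟩ | ⟨e3, e4⟩
      · exact absurd (e1.trans e3.symm) hne
      · rw [e2, e4]; exact h12.symm
      · rw [e2, e4]; exact h12
      · exact absurd (e1.trans e3.symm) hne
    · have hcv : ¬ (c v = s.1 ∨ c v = s.2) := fun h => hpv (hcl u v hpu hv ha h)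
      push Not at hcv
      rw [hval' v hpv]
      rcases hval u hpu with ⟨_, e⟩ | ⟨_, e⟩ <;> rw [e]
      · exact hcv.2.symm
      · exact hcv.1.symm
    · have hcu : ¬ (c u = s.1 ∨ c u = s.2) := fun h => hpu (hcl v u hpv hu ha.symm h)
      push Not at hcu
      rw [hval' u hpu]
      rcases hval v hpv with ⟨_, e⟩ | ⟨_, e⟩ <;> rw [e]
      · exact hcu.2
      · exact hcu.1
    · rw [hval' u hpu, hval' v hpv]; exact hne
  · intro v
    by_cases h : P v
    · obtain ⟨x, hx, hxv⟩ := h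
      have hsum : ∑ y ∈ T, (xs s.1 - xs s.2) * wv ℝ y v = (xs s.1 - xs s.2) * wv ℝ x v := by
        refine sum_eq_single_of_mem x hx fun y hy hyx => ?_
        unfold wv
        rw [if_neg, mul_zero]
        intro hyv
        exact hyx (comp_eq ((hT y hy).trans (hT x hx).symm) hyv hxv)
      rw [hsum]
      unfold wv gam
      rw [if_pos hxv, hT x hx]
      rcases hval v ⟨x, hx, hxv⟩ with ⟨e1, e2⟩ | ⟨e1, e2⟩
      · rw [e2, e1, if_pos rfl]
        simp only [map_add, map_sub, map_mul, map_pow, map_one]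
        ring
      · rw [e2, e1, if_neg h12.symm]
        simp only [map_add, map_sub, map_mul, map_pow, map_one, map_neg]
        ring
    · have hsum : ∑ y ∈ T, (xs s.1 - xs s.2) * wv ℝ y v = 0 := by
        refine sum_eq_zero fun y hy => ?_
        unfold wv
        rw [if_neg, mul_zero]
        intro hyv
        exact h ⟨y, hy, hyv⟩
      rw [hsum, map_zero, mul_zero, add_zero]
      unfold gam
      rw [hval' v h]

end Pool.Agent.Xu.H93
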